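import Pool.Agent.Lib_helper79.Seg.Verify

/-!
Problem MP_16f91c_lc: for every fixed `g ≥ 3` the colouring problem for `g`-segment graphs (with the
number of colours part of the input) is NP-complete.
-/

namespace Pool.Agent.Results.MP_16f91c_lc.SegmentColouringHardness

open Pool.Agent.Poly Pool.Agent.Seg

/-- For every `g ≥ 3` the colouring problem for `g`-segment graphs is in NP, and EXACT COVER, one of
Karp's NP-complete problems, reduces to it in polynomial time. -/
theorem result (g : ℕ) (hg : 3 ≤ g) : InNP (SegColour g) ∧ Reduces ExactCover (SegColour g) :=
  ⟨segColour_inNP g, exactCover_reduces g hg⟩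

end Pool.Agent.Results.MP_16f91c_lc.SegmentColouringHardness
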